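import Pool.Agent.H66.UpsDefs
import Pool.Agent.H66.Ups2

namespace Pool.Agent.Results.MP_c793c5_an.Renorm
open Pool.Agent.H66.Ups

theorem result : ∃ N : Seminorm ℝ (ZeroAtInftyContinuousMap ℕ ℝ),
    (∃ A B : ℝ, 0 < A ∧ 0 < B ∧ ∀ u, A * ‖u‖ ≤ N u ∧ N u ≤ B * ‖u‖) ∧ UniformS N := by
  refine ⟨N, N_equiv, fun d a hd hd2 ha => ?_⟩
  obtain ⟨δ, hδ, h⟩ := ups hd ha
  obtain ⟨A, B, hA, hB, hAB⟩ := N_equiv
  refine hδ.trans_le (le_csInf ?_ ?_)
  · have hz : Filter.Tendsto (Pi.single 0 1 : ℕ → ℝ) (Filter.cocompact ℕ) (nhds 0) := by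
      refine tendsto_const_nhds.congr' ?_
      rw [Filter.cocompact_eq_cofinite]
      exact Filter.eventually_cofinite.2 ((Set.finite_singleton 0).subset fun q hq => by
        by_contra h
        apply hq
        simp [Pi.single_eq_of_ne (show q ≠ 0 from h)])
    set e : X := ⟨⟨Pi.single 0 1, continuous_of_discreteTopology⟩, hz⟩
    have h1 : 1 ≤ ‖e‖ := by simpa [e] using abs_le_norm e 0
    have h2 : 0 < N e := lt_of_lt_of_le (by positivity) (hAB e).1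
    have h3 : N ((N e)⁻¹ • e) = 1 := by
      rw [map_smul_eq_mul, Real.norm_eq_abs, abs_of_pos (by positivity)]; field_simp
    refine ⟨_, (N e)⁻¹ • e, -((N e)⁻¹ • e), h3, by rw [map_neg_eq_map, h3], ?_, rfl⟩
    rw [sub_neg_eq_add, ← two_smul ℝ, map_smul_eq_mul, h3]
    simpa using hd2.le
  · rintro _ ⟨x, y, hx, hy, hxy, rfl⟩
    obtain ⟨z, hz, hz'⟩ := h x y hx hy hxy
    refine hz'.trans (le_csSup ⟨N (x - y), ?_⟩ ⟨z, hz, rfl⟩)
    rintro _ ⟨z, -, rfl⟩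
    have := abs_sub_map_le_sub N (x + z) (y + z)
    rwa [add_sub_add_right_eq_sub] at this

end Pool.Agent.Results.MP_c793c5_an.Renorm
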